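import Pool.Agent.Y947.RL.Stm3
import Pool.Agent.Y693.RL.H2

/-!
# Project RL (helper947), statement T_H2: a prime whose square divides `m`

Adapted from `Pool/Agent/Y693/RL/H2.lean` (helper693).
-/

set_option autoImplicit false

open Finset Polynomial Module Pool.Agent.H388SL Pool.Agent.Y947.DL

namespace Pool.Agent.Y730.RL.H2

open Pool.Agent.Y947.RL
open Pool.Agent.Y693.RL (gset_div)

/-- **H2**, with the weaker assumptions -/
theorem h2b : S_PSD → T_GEN → T_SLF → S_RAM → T_FX → T_H2 := by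
  intro hPSD hGEN hSLF hRAM hFX K _ _ m ζ α hC ε hε hεα R hR p hp hpm2 hex
  classical
  have hpm : p ∣ m := (dvd_pow_self p two_ne_zero).trans hpm2
  have hm4 : 4 ≤ m := by
    have h1 := Nat.le_of_dvd hC.hm hpm2
    have h2 := hp.two_le
    nlinarith
  obtain ⟨hF1, hF2, hF3, -⟩ := hFX K m ζ hC.hm hC.hζ
  have hcard : (Gset m p).card = p := by
    rw [hF2 p hp hpm, if_pos hpm2]
  have hH := hF3 (α ^ p) p hp hpm hpm2 hex
  have h1G : 1 ∈ Gset m p := by
    unfold Gset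
    rw [mem_filter, mem_range]
    exact ⟨by omega, Nat.coprime_one_left m, rfl⟩
  have hfix1 : Fix ζ α 1 := fun σ => ⟨σ, by rw [pow_one], rfl⟩
  have hfix1' : Fix ζ (α ^ p) 1 := fun σ => ⟨σ, by rw [pow_one], rfl⟩
  have h1H : 1 ∈ Hset m p ζ (α ^ p) := by
    unfold Hset
    rw [mem_filter]
    exact ⟨h1G, hfix1'⟩
  have hHu : ∀ u ∈ Gset m p, Fix ζ (α ^ p) u → u = 1 := by
    intro u hu hf
    have h2 : u ∈ Hset m p ζ (α ^ p) := by
      unfold Hset
      rw [mem_filter]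
      exact ⟨hu, hf⟩
    exact Finset.card_le_one.1 hH.le u h2 1 h1H
  have hGc : ∀ s ∈ Gset m p, s.Coprime m := fun s hs => by
    unfold Gset at hs
    exact (mem_filter.1 hs).2.1
  obtain ⟨μ, hμ⟩ : ∃ μ : ℝ, μ = (lam α + ∑ σ, ε σ) / Nat.totient m := ⟨_, rfl⟩
  obtain ⟨n, hn⟩ : ∃ n : ℝ, n = (finrank ℚ K : ℝ) := ⟨_, rfl⟩
  have hn0 : 0 < n := by
    rw [hn]
    exact_mod_cast finrank_pos
  have hp0 : (0 : ℝ) < p := by exact_mod_cast hp.pos
  have hφ : (finrank ℚ K : ℝ) / Nat.totient m * (2 * p * (lam α + ∑ σ, ε σ)) = n * (2 * p * μ) := by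
    rw [hμ, hn]
    ring
  have hφ2 : (finrank ℚ K : ℝ) / Nat.totient m * ((p + p) * (lam α + ∑ σ, ε σ)) = n * (2 * p * μ) := by
    rw [hμ, hn]
    ring
  -- the diagonal
  have hd : ∀ s ∈ Gset m p, EP ζ α ε p p s s ≤ n * (R + 2 * p * μ) := by
    intro s hs
    have h2 := hSLF K m ζ α hC ε hε hεα p s s 1 hp.pos (hGc s hs) (hGc s hs)
      (by rw [one_mul]) hfix1
    rw [hφ] at h2
    rw [← hn] at hR
    linarith
  -- the other pairs
  have ho : ∀ s ∈ Gset m p, ∀ t ∈ Gset m p, s ≠ t →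
      EP ζ α ε p p s t ≤ n * (-Real.log p + 2 * p * μ) := by
    intro s hs t ht hst
    obtain ⟨u, hu, hut, hu1⟩ := gset_div (by omega) hpm hs ht hst
    have hnf : ¬ Fix ζ (α ^ p) u := fun hf => hu1 (hHu u hu hf)
    have hne : ∀ σ : K →ₐ[ℚ] ℂ, ∀ τ ∈ cls ζ ((σ ζ) ^ u), (σ α) ^ p ≠ (τ α) ^ p := by
      intro σ τ hτ h
      refine hF1 (α ^ p) u (hGc u hu) hnf σ τ hτ ?_
      rw [map_pow, map_pow]
      exact h
    have h2 := hGEN K m ζ α hC ε hε p p s t u hp.pos hp.pos (hGc s hs) (hGc t ht) hut hne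
    have h3 := hRAM K m ζ α hC.hm hC.hζ hC.hα p hp hpm u hu hne
    have h4 := Real.log_le_log (by positivity) h3
    rw [Real.log_pow, ← hn] at h4
    rw [hφ2] at h2
    linarith
  have h5 := hPSD K ζ α ε hε ℕ (Gset m p) (fun _ => p) (fun i => i) (fun _ => 1)
    (fun _ _ => hp.pos)
  simp only [one_mul] at h5
  have h6 : ∀ s ∈ Gset m p, ∑ t ∈ Gset m p, EP ζ α ε p p s t ≤
      n * (R + 2 * p * μ) + (p - 1) * (n * (-Real.log p + 2 * p * μ)) := by
    intro s hs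
    rw [← Finset.add_sum_erase _ _ hs]
    refine add_le_add (hd s hs) ?_
    refine (Finset.sum_le_card_nsmul _ _ (n * (-Real.log p + 2 * p * μ)) fun t ht =>
      ho s hs t (mem_of_mem_erase ht) (ne_of_mem_erase ht).symm).trans (le_of_eq ?_)
    rw [card_erase_of_mem hs, hcard, nsmul_eq_mul, Nat.cast_sub hp.one_le, Nat.cast_one]
  have h7 := h5.trans (Finset.sum_le_sum h6)
  rw [Finset.sum_const, hcard, nsmul_eq_mul] at h7
  have h8 : (p : ℝ) * (n * (R + 2 * p * μ) + (p - 1) * (n * (-Real.log p + 2 * p * μ))) =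
      p * n * (R + 2 * (p : ℝ) ^ 2 * μ - (p - 1) * Real.log p) := by ring
  rw [h8] at h7
  have h9 := nonneg_of_mul_nonneg_right h7 (mul_pos hp0 hn0)
  rw [← hμ]
  linarith

end Pool.Agent.Y730.RL.H2
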